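import Pool.Agent.H753R3.SC.Stmts4

set_option autoImplicit false

namespace Pool.Agent.H753R3.SC

open Set

theorem q448_split (Z : Set ℕ) (hZ : Z.Infinite) :
    ∃ Z1 Z2 : Set ℕ, Z1 ⊆ Z ∧ Z2 ⊆ Z ∧ Z1.Infinite ∧ Z2.Infinite ∧ Disjoint Z1 Z2 := by
  have hinj : StrictMono (Nat.nth (· ∈ Z)) := Nat.nth_strictMono hZ
  refine ⟨range (fun n => Nat.nth (· ∈ Z) (2 * n)), range (fun n => Nat.nth (· ∈ Z) (2 * n + 1)),
    ?_, ?_, ?_, ?_, ?_⟩
  · rintro _ ⟨n, rfl⟩
    exact Nat.nth_mem_of_infinite hZ _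
  · rintro _ ⟨n, rfl⟩
    exact Nat.nth_mem_of_infinite hZ _
  · refine infinite_range_of_injective fun a b h => ?_
    have := hinj.injective h
    omega
  · refine infinite_range_of_injective fun a b h => ?_
    have := hinj.injective h
    omega
  · rw [Set.disjoint_left]
    rintro _ ⟨n, rfl⟩ ⟨m, hm⟩
    have := hinj.injective hm
    omega

theorem taskQ : TaskQ := by
  unfold TaskQ
  have hne : ({c | ∃ 𝓕 : Set (Set ℕ), Cardinal.mk 𝓕 = c ∧
      (∀ S : Finset (Set ℕ), (∀ s ∈ S, s ∈ 𝓕) → (⋂ s ∈ S, s).Infinite) ∧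
      ∀ Z : Set ℕ, Z.Infinite → ∃ s ∈ 𝓕, (Z \ s).Infinite} : Set Cardinal.{0}).Nonempty := by
    refine ⟨_, {s | s ∈ Filter.hyperfilter ℕ}, rfl, ?_, ?_⟩
    · intro S hS
      have hmem : (⋂ s ∈ S, s) ∈ (Filter.hyperfilter ℕ : Filter ℕ) :=
        (Filter.biInter_finset_mem S).2 fun s hs => hS s hs
      intro hfin
      exact Filter.notMem_hyperfilter_of_finite hfin hmem
    · intro Z hZ
      obtain ⟨Z1, Z2, h1, h2, hi1, hi2, hd⟩ := q448_split Z hZ
      rcases (Filter.hyperfilter ℕ).mem_or_compl_mem Z1 with h | h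
      · refine ⟨Z1, h, hi2.mono fun x hx => ⟨h2 hx, fun hx1 => ?_⟩⟩
        exact Set.disjoint_left.mp hd hx1 hx
      · refine ⟨Z1ᶜ, h, hi1.mono fun x hx => ⟨h1 hx, fun hx1 => hx1 hx⟩⟩
  obtain ⟨F, hF, hfip, hps⟩ := csInf_mem hne
  change Cardinal.aleph0 < pnum
  have hF' : Cardinal.mk F = pnum := hF
  rw [← hF']
  by_contra hcon
  have hcount : F.Countable := Cardinal.le_aleph0_iff_set_countable.mp (not_lt.mp hcon)
  rcases F.eq_empty_or_nonempty with he | hnF
  · obtain ⟨s, hs, -⟩ := hps univ infinite_univ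
    rw [he] at hs
    exact hs
  obtain ⟨s, rfl⟩ := hcount.exists_eq_range hnF
  have hI : ∀ n : ℕ, (⋂ k ∈ Finset.range (n + 1), s k).Infinite := by
    intro n
    classical
    have := hfip ((Finset.range (n + 1)).image s) (by
      intro t ht
      obtain ⟨k, -, rfl⟩ := Finset.mem_image.mp ht
      exact ⟨k, rfl⟩)
    refine this.mono ?_
    intro x hx
    simp only [Finset.mem_image, iInter_exists, mem_iInter] at hx ⊢
    intro k hk
    exact hx (s k) k ⟨hk, rfl⟩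
  have hg : ∀ n a : ℕ, ∃ b ∈ (⋂ k ∈ Finset.range (n + 1), s k), a < b := fun n a =>
    (hI n).exists_gt a
  choose g hgm hgl using hg
  let z : ℕ → ℕ := fun n => Nat.rec (g 0 0) (fun n a => g (n + 1) a) n
  have hz1 : ∀ n, z (n + 1) = g (n + 1) (z n) := fun n => rfl
  have hzm : ∀ n, z n ∈ (⋂ k ∈ Finset.range (n + 1), s k) := by
    intro n
    cases n with
    | zero => exact hgm 0 0
    | succ n => rw [hz1]; exact hgm _ _
  have hzmono : StrictMono z := strictMono_nat_of_lt_succ fun n => by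
    rw [hz1]; exact hgl _ _
  obtain ⟨t, ⟨k, rfl⟩, hinf⟩ := hps (range z) (infinite_range_of_injective hzmono.injective)
  refine hinf ((Set.finite_lt_nat k).image z |>.subset ?_)
  rintro _ ⟨⟨n, rfl⟩, hn⟩
  refine ⟨n, ?_, rfl⟩
  by_contra hnk
  apply hn
  have := hzm n
  simp only [mem_iInter, Finset.mem_range] at this
  have hnk' : ¬ n < k := hnk
  exact this k (by omega)

end Pool.Agent.H753R3.SC
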